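import Pool.Agent.Helper43.AX.St

/-!
# Project AX (MP_b3ce06_al), module FL: the field lemma
-/

set_option autoImplicit false

namespace Pool.Agent.Helper64.AX

open Pool.Agent.Helper43.AX

private theorem cop (p : ℕ) (hp : 2 ≤ p) : Nat.gcd ((p ^ p - 1) / (p - 1)) (p - 1) = 1 := by
  have h1 : ∑ i ∈ Finset.range p, p ^ i = (p ^ p - 1) / (p - 1) := Nat.geomSum_eq hp p
  have h2 : p ≡ 1 [MOD (p - 1)] := by
    have e : p = 1 + (p - 1) := by omega
    have h3 : 1 + (p - 1) ≡ 1 [MOD (p - 1)] := Nat.add_modEq_right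
    rwa [← e] at h3
  have h4 : ∀ n : ℕ, ∑ i ∈ Finset.range n, p ^ i ≡ n [MOD (p - 1)] := by
    intro n
    induction n with
    | zero => exact Nat.ModEq.refl _
    | succ n ih =>
      rw [Finset.sum_range_succ]
      have h5 : p ^ n ≡ 1 [MOD (p - 1)] := by
        have h6 := h2.pow n
        rwa [one_pow] at h6
      exact ih.add h5
  have h7 : (p ^ p - 1) / (p - 1) ≡ 1 [MOD (p - 1)] := by
    rw [← h1]
    exact (h4 p).trans h2
  rw [h7.gcd_eq, Nat.gcd_one_left]

theorem hFL (hFP : StFP) (hR1 : StR1) (hGY : StGY) : StFL := by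
  intro p L A _ _ x Q hF hx
  have hp2 : 2 ≤ p := hF.pr.two_le
  have hpp : 1 < p ^ p := Nat.one_lt_pow (by omega) (by omega)
  have hfin : Finite L := by
    apply Nat.finite_of_card_ne_zero
    rw [hF.card]
    omega
  have hnt : Nontrivial L := by
    apply (Finite.one_lt_card_iff_nontrivial).1
    rw [hF.card]
    exact hpp
  have hU : ∀ u : Lˣ, Q.In (u : L) → u ∈ Q.U := by
    rintro u ⟨v, hv, e⟩
    have h1 : v = u := Units.ext e
    rwa [h1] at hv
  have hZ : ∀ m : ℤ, (m : L) ≠ 0 → Q.In (m : L) := by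
    intro m hm
    refine hFP p L A x Q hF hx m ?_
    rintro ⟨k, rfl⟩
    apply hm
    push_cast
    rw [hF.char, zero_mul]
  -- the claim
  have claim : ∀ y : Lˣ, y ∈ Q.U → (y : L) ≠ 1 → Q.In (1 - (y : L)) := by
    intro y hy hy1
    have hne : (1 : L) - (y : L) ≠ 0 := fun h => hy1 (sub_eq_zero.1 h).symm
    rcases (hGY p L x hF (y : L)).1 with ⟨m, hm⟩ | hG
    · have e : (1 : L) - (y : L) = ((1 - m : ℤ) : L) := by
        rw [hm]
        push_cast
        ring
      rw [e] at hne ⊢
      exact hZ _ hne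
    · obtain ⟨d, hd⟩ := hF.unit _ hne
      have k1 : d ^ (p - 1) ∈ Q.U := hR1 p L A x Q hF y d hy hG hd
      have k2 : d ^ ((p ^ p - 1) / (p - 1)) ∈ Q.U := by
        apply hU
        have hd0 : (d : L) ≠ 0 := d.ne_zero
        obtain ⟨m, hm⟩ := (hGY p L x hF (d : L)).2 hd0
        have e : ((d ^ ((p ^ p - 1) / (p - 1)) : Lˣ) : L) = (m : L) := by
          rw [Units.val_pow_eq_pow_val, hm]
        have h0 : (m : L) ≠ 0 := by
          rw [← e]
          exact Units.ne_zero _
        rw [e]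
        exact hZ m h0
      have k3 : d ∈ Q.U := by
        have hb := Nat.gcd_eq_gcd_ab ((p ^ p - 1) / (p - 1)) (p - 1)
        rw [cop p hp2] at hb
        have e : d = (d ^ ((p ^ p - 1) / (p - 1))) ^ (Nat.gcdA ((p ^ p - 1) / (p - 1)) (p - 1)) *
            (d ^ (p - 1)) ^ (Nat.gcdB ((p ^ p - 1) / (p - 1)) (p - 1)) := by
          rw [← zpow_natCast, ← zpow_natCast, ← zpow_mul, ← zpow_mul, ← zpow_add, ← hb]
          rw [Nat.cast_one, zpow_one]
        rw [e]
        exact Q.U.mul_mem (Q.U.zpow_mem k2 _) (Q.U.zpow_mem k1 _)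
      exact ⟨d, k3, hd⟩
  -- the additive subgroup
  let N : AddSubgroup L :=
    { carrier := {a | a = 0 ∨ Q.In a}
      zero_mem' := Or.inl rfl
      neg_mem' := by
        rintro a (rfl | ⟨u, hu, rfl⟩)
        · exact Or.inl neg_zero
        · refine Or.inr ⟨(-1) * u, Q.U.mul_mem Q.neg hu, ?_⟩
          rw [neg_one_mul, Units.val_neg]
      add_mem' := by
        rintro a b (rfl | ⟨u, hu, rfl⟩) (rfl | ⟨v, hv, rfl⟩)
        · exact Or.inl (add_zero 0)
        · exact Or.inr ⟨v, hv, (zero_add _).symm⟩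
        · exact Or.inr ⟨u, hu, (add_zero _).symm⟩
        · by_cases h0 : (u : L) + (v : L) = 0
          · exact Or.inl h0
          · right
            have hy : (-1) * v * u⁻¹ ∈ Q.U := Q.U.mul_mem (Q.U.mul_mem Q.neg hv) (Q.U.inv_mem hu)
            have hval : ((((-1) * v * u⁻¹ : Lˣ)) : L) * (u : L) = -(v : L) := by
              rw [← Units.val_mul, inv_mul_cancel_right, neg_one_mul, Units.val_neg]
            have hy1 : ((((-1) * v * u⁻¹ : Lˣ)) : L) ≠ 1 := by
              intro h
              rw [h, one_mul] at hval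
              apply h0
              rw [hval]
              ring
            obtain ⟨w, hw, ew⟩ := claim _ hy hy1
            refine ⟨w * u, Q.U.mul_mem hw hu, ?_⟩
            rw [Units.val_mul, ew, sub_mul, hval, one_mul, sub_neg_eq_add] }
  have hN : ∀ y, y ∈ N := by
    apply hF.gn N
    · exact Or.inr ⟨1, Q.U.one_mem, Units.val_one⟩
    · rintro y (rfl | ⟨u, hu, rfl⟩)
      · exact Or.inl (mul_zero _)
      · exact Or.inr ⟨x * u, Q.U.mul_mem hx hu, Units.val_mul _ _⟩
  intro u
  rcases hN (u : L) with h | h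
  · exact absurd h (Units.ne_zero u)
  · exact hU u h

end Pool.Agent.Helper64.AX
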